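import Mathlib

/-!
# Arithmetic layer of the kernel checkers (council 2, helper62)

All quantities are natural numbers. `2^40` is the scale of the fixed point numbers: the mantissa
`a` stands for `a / 2^40`.
-/

set_option autoImplicit false

namespace Pool.Agent.Lib.MP_af3a4a_an.P1.CHK.Arith

/-- strict evaluation: the kernel evaluates `x` to a literal before it goes on -/
def ev {α : Type} (x : ℕ) (k : ℕ → α) : α := Nat.rec (k 0) (fun n _ => k (Nat.succ n)) x

theorem ev_eq {α : Type} (x : ℕ) (k : ℕ → α) : ev x k = k x := by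
  cases x <;> rfl

/-- absolute difference -/
def ad (a b : ℕ) : ℕ := (a - b) + (b - a)

theorem ad_cast (a b : ℕ) : ((ad a b : ℕ) : ℝ) = |(a : ℝ) - b| := by
  unfold ad
  rcases le_total a b with h | h
  · rw [Nat.sub_eq_zero_of_le h, zero_add, Nat.cast_sub h, abs_sub_comm, abs_of_nonneg]
    exact sub_nonneg.2 (Nat.cast_le.2 h)
  · rw [Nat.sub_eq_zero_of_le h, add_zero, Nat.cast_sub h, abs_of_nonneg]
    exact sub_nonneg.2 (Nat.cast_le.2 h)

/-- truncated subtraction is an upper bound of the difference -/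
theorem sub_le_cast (a b : ℕ) : (a : ℝ) - b ≤ ((a - b : ℕ) : ℝ) := by
  have h : a ≤ (a - b) + b := by omega
  have h' : (a : ℝ) ≤ ((a - b : ℕ) : ℝ) + b := by exact_mod_cast h
  linarith

/-- truncated subtraction is a lower bound of anything nonnegative and `≥ a - b` -/
theorem cast_sub_le (a b : ℕ) {y : ℝ} (hy : 0 ≤ y) (h : (a : ℝ) - b ≤ y) :
    ((a - b : ℕ) : ℝ) ≤ y := by
  rcases le_total b a with h1 | h1
  · rw [Nat.cast_sub h1]
    exact h
  · rw [Nat.sub_eq_zero_of_le h1, Nat.cast_zero]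
    exact hy

/-! ### floor and ceiling of quotients -/

theorem div_le_real (a b : ℕ) : ((a / b : ℕ) : ℝ) ≤ (a : ℝ) / b := Nat.cast_div_le

theorem real_lt_div (a b : ℕ) (hb : 0 < b) : (a : ℝ) / b < ((a / b + 1 : ℕ) : ℝ) := by
  have hb' : (0 : ℝ) < b := Nat.cast_pos.2 hb
  rw [div_lt_iff₀ hb']
  have h := Nat.lt_mul_div_succ a hb
  have h2 : a < (a / b + 1) * b := by rwa [mul_comm] at h
  exact_mod_cast h2

theorem real_le_div (a b : ℕ) (hb : 0 < b) : (a : ℝ) / b ≤ ((a / b + 1 : ℕ) : ℝ) :=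
  (real_lt_div a b hb).le

theorem shr_le (a k : ℕ) : ((a >>> k : ℕ) : ℝ) ≤ (a : ℝ) / 2 ^ k := by
  rw [Nat.shiftRight_eq_div_pow]
  have h := div_le_real a (2 ^ k)
  rwa [Nat.cast_pow, Nat.cast_ofNat] at h

theorem le_shr (a k : ℕ) : (a : ℝ) / 2 ^ k ≤ ((a >>> k + 1 : ℕ) : ℝ) := by
  rw [Nat.shiftRight_eq_div_pow]
  have h := real_le_div a (2 ^ k) (by positivity)
  rwa [Nat.cast_pow, Nat.cast_ofNat] at h

/-- product of mantissas, rounded down -/
def mL (a b : ℕ) : ℕ := (a * b) >>> 40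
/-- product of mantissas, rounded up -/
def mU (a b : ℕ) : ℕ := (a * b) >>> 40 + 1

theorem mL_le (a b : ℕ) : ((mL a b : ℕ) : ℝ) / 2 ^ 40 ≤ (a : ℝ) / 2 ^ 40 * (b / 2 ^ 40) := by
  have h := shr_le (a * b) 40
  unfold mL
  rw [Nat.cast_mul] at h
  rw [div_mul_div_comm, div_le_div_iff₀ (by positivity) (by positivity)]
  rw [le_div_iff₀ (by positivity)] at h
  nlinarith

theorem le_mU (a b : ℕ) : (a : ℝ) / 2 ^ 40 * (b / 2 ^ 40) ≤ ((mU a b : ℕ) : ℝ) / 2 ^ 40 := by
  have h := le_shr (a * b) 40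
  unfold mU
  rw [Nat.cast_mul, div_le_iff₀ (by positivity)] at h
  rw [div_mul_div_comm, div_le_div_iff₀ (by positivity) (by positivity)]
  nlinarith

/-! ### square roots -/

/-- one Newton step from above -/
def nst (a t : ℕ) : ℕ := (t + a / t) / 2 + 1

theorem nst_pos (a t : ℕ) : 0 < nst a t := Nat.succ_pos _

theorem sqrt_le_nst (a t : ℕ) (ht : 0 < t) : Real.sqrt a ≤ nst a t := by
  have ht' : (0 : ℝ) < t := Nat.cast_pos.2 ht
  have h1 := real_lt_div a t ht
  have h3 : Real.sqrt a ≤ ((t : ℝ) + a / t) / 2 := by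
    rw [Real.sqrt_le_left (by positivity)]
    have e : (((t : ℝ) + a / t) / 2) ^ 2 - a = (((t : ℝ) - a / t) / 2) ^ 2 := by
      field_simp
      ring
    linarith [sq_nonneg (((t : ℝ) - a / t) / 2)]
  have h4 : t + a / t + 1 ≤ 2 * nst a t := by
    unfold nst
    omega
  have h5 : (t : ℝ) + ((a / t : ℕ) : ℝ) + 1 ≤ 2 * (nst a t : ℕ) := by exact_mod_cast h4
  push_cast at h1
  linarith

/-- upper bound of the square root of an integer -/
def isq (a : ℕ) : ℕ :=
  ev (1 <<< (Nat.log2 a / 2 + 1)) fun t => ev (nst a t) fun t => ev (nst a t) fun t =>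
    ev (nst a t) fun t => nst a t

theorem isq_pos (a : ℕ) : 0 < isq a := by
  unfold isq
  simp only [ev_eq]
  exact nst_pos _ _

theorem sqrt_le_isq (a : ℕ) : Real.sqrt a ≤ isq a := by
  unfold isq
  simp only [ev_eq]
  exact sqrt_le_nst _ _ (nst_pos _ _)

/-- lower bound of the square root of an integer -/
def isqL (a : ℕ) : ℕ := a / isq a

theorem isqL_le_sqrt (a : ℕ) : ((isqL a : ℕ) : ℝ) ≤ Real.sqrt a := by
  unfold isqL
  refine (div_le_real _ _).trans ?_
  have h := sqrt_le_isq a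
  have hp : (0 : ℝ) < isq a := Nat.cast_pos.2 (isq_pos a)
  rw [div_le_iff₀ hp]
  calc (a : ℝ) = Real.sqrt a * Real.sqrt a := (Real.mul_self_sqrt (Nat.cast_nonneg a)).symm
    _ ≤ Real.sqrt a * isq a := mul_le_mul_of_nonneg_left h (Real.sqrt_nonneg _)

/-! ### polynomial bounds of the exponential -/

theorem nonneg_of_deriv {f f' : ℝ → ℝ} (hd : ∀ x, HasDerivAt f (f' x) x) (h0 : 0 ≤ f 0)
    (h' : ∀ x, 0 ≤ x → 0 ≤ f' x) {x : ℝ} (hx : 0 ≤ x) : 0 ≤ f x := by
  have hmono : MonotoneOn f (Set.Ici 0) := by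
    apply monotoneOn_of_deriv_nonneg (convex_Ici 0)
    · exact fun x _ => (hd x).continuousAt.continuousWithinAt
    · exact fun x _ => (hd x).differentiableAt.differentiableWithinAt
    · intro x hx
      rw [interior_Ici] at hx
      rw [(hd x).deriv]
      exact h' x (le_of_lt hx)
  exact h0.trans (hmono (Set.mem_Ici.2 le_rfl) (Set.mem_Ici.2 hx) hx)

theorem hasDerivAt_exp_neg (x : ℝ) : HasDerivAt (fun x => Real.exp (-x)) (-Real.exp (-x)) x := by
  have := (hasDerivAt_neg x).exp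
  simpa using this

theorem exp_neg_ge1 {x : ℝ} (_hx : 0 ≤ x) : 1 - x ≤ Real.exp (-x) := Real.one_sub_le_exp_neg x

theorem exp_neg_le2 {x : ℝ} (hx : 0 ≤ x) : Real.exp (-x) ≤ 1 - x + x ^ 2 / 2 := by
  have h := nonneg_of_deriv (f := fun x => 1 - x + x ^ 2 / 2 - Real.exp (-x))
    (f' := fun x => Real.exp (-x) - (1 - x)) ?_ (by simp)
    (fun x hx => sub_nonneg.2 (exp_neg_ge1 hx)) hx
  · linarith
  · intro x
    have h1 := (((hasDerivAt_id x).const_sub 1).add (((hasDerivAt_id x).pow 2).div_const 2)).sub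
      (hasDerivAt_exp_neg x)
    refine h1.congr_deriv ?_
    simp
    ring

theorem exp_neg_ge3 {x : ℝ} (hx : 0 ≤ x) : 1 - x + x ^ 2 / 2 - x ^ 3 / 6 ≤ Real.exp (-x) := by
  have h := nonneg_of_deriv (f := fun x => Real.exp (-x) - (1 - x + x ^ 2 / 2 - x ^ 3 / 6))
    (f' := fun x => (1 - x + x ^ 2 / 2) - Real.exp (-x)) ?_ (by simp)
    (fun x hx => sub_nonneg.2 (exp_neg_le2 hx)) hx
  · linarith
  · intro x
    have h1 := (hasDerivAt_exp_neg x).sub ((((hasDerivAt_id x).const_sub 1).add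
      (((hasDerivAt_id x).pow 2).div_const 2)).sub (((hasDerivAt_id x).pow 3).div_const 6))
    refine h1.congr_deriv ?_
    simp
    ring

theorem exp_neg_le4 {x : ℝ} (hx : 0 ≤ x) :
    Real.exp (-x) ≤ 1 - x + x ^ 2 / 2 - x ^ 3 / 6 + x ^ 4 / 24 := by
  have h := nonneg_of_deriv
    (f := fun x => 1 - x + x ^ 2 / 2 - x ^ 3 / 6 + x ^ 4 / 24 - Real.exp (-x))
    (f' := fun x => Real.exp (-x) - (1 - x + x ^ 2 / 2 - x ^ 3 / 6)) ?_ (by simp)
    (fun x hx => sub_nonneg.2 (exp_neg_ge3 hx)) hx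
  · linarith
  · intro x
    have h1 := (((((hasDerivAt_id x).const_sub 1).add
      (((hasDerivAt_id x).pow 2).div_const 2)).sub (((hasDerivAt_id x).pow 3).div_const 6)).add
      (((hasDerivAt_id x).pow 4).div_const 24)).sub (hasDerivAt_exp_neg x)
    refine h1.congr_deriv ?_
    simp
    ring

theorem exp_ge3 {x : ℝ} (hx : 0 ≤ x) : 1 + x + x ^ 2 / 2 + x ^ 3 / 6 ≤ Real.exp x := by
  have h := Real.sum_le_exp_of_nonneg hx 4
  simp only [Finset.sum_range_succ, Finset.sum_range_zero, Nat.factorial] at h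
  norm_num at h
  linarith

/-! ### exponentials of fixed point numbers -/

/-- `exp(-m) ≤ em m` -/
def em (m : ℕ) : ℕ :=
  ev (m >>> 8) fun t => ev (t * t) fun t2 =>
    (((35076039295941670036888435985190792471742381031424 +
        t2 * (14507109835375550096474112 + t2)) -
      4398046511104 * t * (7253554917687775048237056 + t2)) /
        31901471898837980949691369446728269824 + 1) ^ 256 >>> 10200 + 1

/-- lower bound: `emL m ≤ exp(-m)` -/
def emL (m : ℕ) : ℕ :=
  ev (m >>> 8 + 1) fun t => ev (t * t) fun t2 =>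
    (((7975367974709495237422842361682067456 + 3298534883328 * t2) -
      t * (7253554917687775048237056 + t2)) / 7253554917687775048237056) ^ 256 >>> 10200

/-- `exp p ≤ ep p` -/
def ep (p : ℕ) : ℕ :=
  ev (p >>> 8 + 1) fun t => ev (t * t) fun t2 =>
    bif Nat.ble t 1099511627776 then
      (8769009823985417509222108996297698117935595257856 /
        ((7975367974709495237422842361682067456 + 3298534883328 * t2) -
          t * (7253554917687775048237056 + t2)) + 1) ^ 256 >>> 10200 + 1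
    else 3 ^ (p >>> 40 + 1) * 1099511627776

/-- lower bound: `epL p ≤ exp p` -/
def epL (p : ℕ) : ℕ :=
  ev (p >>> 8) fun t => ev (t * t) fun t2 =>
    (((7975367974709495237422842361682067456 + 3298534883328 * t2) +
      t * (7253554917687775048237056 + t2)) / 7253554917687775048237056) ^ 256 >>> 10200

theorem pow256 (x : ℝ) : Real.exp (256 * x) = Real.exp x ^ 256 := by
  rw [← Real.exp_nat_mul]
  norm_num

theorem up256 {p : ℕ} {y : ℝ} (hy : 0 ≤ y) (h : y ≤ p / 2 ^ 40) :
    y ^ 256 ≤ ((p ^ 256 >>> 10200 + 1 : ℕ) : ℝ) / 2 ^ 40 := by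
  have h1 := le_shr (p ^ 256) 10200
  have h2 : y ^ 256 ≤ ((p : ℝ) / 2 ^ 40) ^ 256 := pow_le_pow_left₀ hy h 256
  have e : ((p : ℝ) / 2 ^ 40) ^ 256 = (p : ℝ) ^ 256 / 2 ^ 10200 / 2 ^ 40 := by
    rw [div_pow, ← pow_mul, div_div, ← pow_add]
  rw [e] at h2
  refine h2.trans ?_
  apply div_le_div_of_nonneg_right _ (by positivity)
  rw [Nat.cast_pow] at h1
  exact h1

theorem dn256 {p : ℕ} {y : ℝ} (h : (p : ℝ) / 2 ^ 40 ≤ y) :
    ((p ^ 256 >>> 10200 : ℕ) : ℝ) / 2 ^ 40 ≤ y ^ 256 := by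
  have h1 := shr_le (p ^ 256) 10200
  have h2 : ((p : ℝ) / 2 ^ 40) ^ 256 ≤ y ^ 256 := pow_le_pow_left₀ (by positivity) h 256
  have e : ((p : ℝ) / 2 ^ 40) ^ 256 = (p : ℝ) ^ 256 / 2 ^ 10200 / 2 ^ 40 := by
    rw [div_pow, ← pow_mul, div_div, ← pow_add]
  rw [e] at h2
  refine le_trans ?_ h2
  apply div_le_div_of_nonneg_right _ (by positivity)
  rw [Nat.cast_pow] at h1
  exact h1

theorem em_spec (m : ℕ) : Real.exp (-((m : ℝ) / 2 ^ 40)) ≤ (em m : ℝ) / 2 ^ 40 := by
  unfold em
  simp only [ev_eq]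
  set t := m >>> 8 with ht
  have ht1 : (t : ℝ) ≤ m / 2 ^ 8 := by rw [ht]; exact shr_le m 8
  have e1 : Real.exp (-((m : ℝ) / 2 ^ 40)) = Real.exp (-((m : ℝ) / 2 ^ 48)) ^ 256 := by
    rw [← pow256]
    congr 1
    ring
  rw [e1]
  apply up256 (Real.exp_pos _).le
  have h2 : Real.exp (-((m : ℝ) / 2 ^ 48)) ≤ Real.exp (-((t : ℝ) / 2 ^ 40)) := by
    apply Real.exp_le_exp.2
    rw [neg_le_neg_iff, div_le_div_iff₀ (by positivity) (by positivity)]
    rw [le_div_iff₀ (by positivity)] at ht1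
    nlinarith
  refine h2.trans ((exp_neg_le4 (by positivity)).trans ?_)
  rw [le_div_iff₀ (by positivity)]
  refine le_trans ?_ (real_le_div _ _ (by norm_num))
  rw [le_div_iff₀ (by norm_num)]
  refine le_trans (le_of_eq ?_) (sub_le_cast _ _)
  push_cast
  ring

theorem emL_spec (m : ℕ) : (emL m : ℝ) / 2 ^ 40 ≤ Real.exp (-((m : ℝ) / 2 ^ 40)) := by
  unfold emL
  simp only [ev_eq]
  set t := m >>> 8 + 1 with ht
  have ht1 : (m : ℝ) / 2 ^ 8 ≤ t := by rw [ht]; exact le_shr m 8
  have e1 : Real.exp (-((m : ℝ) / 2 ^ 40)) = Real.exp (-((m : ℝ) / 2 ^ 48)) ^ 256 := by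
    rw [← pow256]
    congr 1
    ring
  rw [e1]
  apply dn256
  have h2 : Real.exp (-((t : ℝ) / 2 ^ 40)) ≤ Real.exp (-((m : ℝ) / 2 ^ 48)) := by
    apply Real.exp_le_exp.2
    rw [neg_le_neg_iff, div_le_div_iff₀ (by positivity) (by positivity)]
    rw [div_le_iff₀ (by positivity)] at ht1
    nlinarith
  refine le_trans ?_ h2
  rw [div_le_iff₀ (by positivity)]
  refine (div_le_real _ _).trans ?_
  rw [div_le_iff₀ (by norm_num)]
  apply cast_sub_le
  · positivity
  · have h3 := exp_neg_ge3 (x := (t : ℝ) / 2 ^ 40) (by positivity)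
    have h4 := mul_le_mul_of_nonneg_right h3
      (by norm_num : (0 : ℝ) ≤ 2 ^ 40 * 7253554917687775048237056)
    refine le_trans (le_of_eq ?_) (h4.trans (le_of_eq ?_))
    · push_cast
      ring
    · push_cast
      ring

theorem ep_spec (p : ℕ) : Real.exp ((p : ℝ) / 2 ^ 40) ≤ (ep p : ℝ) / 2 ^ 40 := by
  unfold ep
  simp only [ev_eq]
  set t := p >>> 8 + 1 with ht
  have ht1 : (p : ℝ) / 2 ^ 8 ≤ t := by rw [ht]; exact le_shr p 8
  by_cases hb : t ≤ 1099511627776
  · have hb' : Nat.ble t 1099511627776 = true := Nat.ble_eq_true_of_le hb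
    rw [hb', cond_true]
    have e1 : Real.exp ((p : ℝ) / 2 ^ 40) = Real.exp ((p : ℝ) / 2 ^ 48) ^ 256 := by
      rw [← pow256]
      congr 1
      ring
    rw [e1]
    apply up256 (Real.exp_pos _).le
    have h2 : Real.exp ((p : ℝ) / 2 ^ 48) ≤ Real.exp ((t : ℝ) / 2 ^ 40) := by
      apply Real.exp_le_exp.2
      rw [div_le_div_iff₀ (by positivity) (by positivity)]
      rw [div_le_iff₀ (by positivity)] at ht1
      nlinarith
    refine h2.trans ?_
    set τ := (t : ℝ) / 2 ^ 40 with hτ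
    have hτ0 : 0 ≤ τ := by rw [hτ]; positivity
    have hτ1 : τ ≤ 1 := by
      rw [hτ, div_le_one (by positivity)]
      have : (t : ℝ) ≤ 1099511627776 := by exact_mod_cast hb
      linarith
    have hQ : 0 < 1 - τ + τ ^ 2 / 2 - τ ^ 3 / 6 := by
      have : 0 ≤ τ ^ 2 * (1 - τ) := by
        apply mul_nonneg (by positivity) (by linarith)
      nlinarith [sq_nonneg (τ - 1)]
    have h3 := exp_neg_ge3 hτ0
    have h4 : Real.exp τ ≤ 1 / (1 - τ + τ ^ 2 / 2 - τ ^ 3 / 6) := by
      rw [le_div_iff₀ hQ]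
      have h5 := mul_le_mul_of_nonneg_left h3 (Real.exp_pos τ).le
      rwa [← Real.exp_add, add_neg_cancel, Real.exp_zero] at h5
    refine h4.trans ?_
    -- the integer denominator is exact
    have hden : (((7975367974709495237422842361682067456 + 3298534883328 * (t * t)) -
          t * (7253554917687775048237056 + t * t) : ℕ) : ℝ) =
        7975367974709495237422842361682067456 * (1 - τ + τ ^ 2 / 2 - τ ^ 3 / 6) := by
      have e2 : (7975367974709495237422842361682067456 * (1 - τ + τ ^ 2 / 2 - τ ^ 3 / 6) : ℝ) =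
          ((7975367974709495237422842361682067456 + 3298534883328 * (t * t) : ℕ) : ℝ) -
            ((t * (7253554917687775048237056 + t * t) : ℕ) : ℝ) := by
        rw [hτ]
        push_cast
        ring
      rw [e2, Nat.cast_sub]
      have h5 : ((t * (7253554917687775048237056 + t * t) : ℕ) : ℝ) ≤
          ((7975367974709495237422842361682067456 + 3298534883328 * (t * t) : ℕ) : ℝ) := by
        have : 0 ≤ (7975367974709495237422842361682067456 *
          (1 - τ + τ ^ 2 / 2 - τ ^ 3 / 6) : ℝ) := by positivity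
        rw [e2] at this
        linarith
      exact_mod_cast h5
    have hpos : 0 < (7975367974709495237422842361682067456 + 3298534883328 * (t * t)) -
          t * (7253554917687775048237056 + t * t) := by
      have : (0 : ℝ) < (((7975367974709495237422842361682067456 + 3298534883328 * (t * t)) -
          t * (7253554917687775048237056 + t * t) : ℕ) : ℝ) := by
        rw [hden]
        positivity
      exact_mod_cast this
    rw [le_div_iff₀ (by positivity)]
    refine le_trans (le_of_eq ?_) (real_le_div _ _ hpos)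
    rw [hden]
    field_simp
    norm_num
  · have hb' : Nat.ble t 1099511627776 = false := by
      rw [Bool.eq_false_iff, ne_eq, Nat.ble_eq]
      exact hb
    rw [hb', cond_false]
    have h1 := le_shr p 40
    have h2 : Real.exp ((p : ℝ) / 2 ^ 40) ≤ 3 ^ (p >>> 40 + 1) := by
      calc Real.exp ((p : ℝ) / 2 ^ 40) ≤ Real.exp ((p >>> 40 + 1 : ℕ) : ℝ) :=
            Real.exp_le_exp.2 h1
        _ = Real.exp 1 ^ (p >>> 40 + 1) := by rw [← Real.exp_nat_mul, mul_one]
        _ ≤ 3 ^ (p >>> 40 + 1) := by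
            apply pow_le_pow_left₀ (Real.exp_pos 1).le
            exact (Real.exp_one_lt_d9.trans (by norm_num)).le
    refine h2.trans (le_of_eq ?_)
    push_cast
    field_simp
    norm_num

theorem epL_spec (p : ℕ) : (epL p : ℝ) / 2 ^ 40 ≤ Real.exp ((p : ℝ) / 2 ^ 40) := by
  unfold epL
  simp only [ev_eq]
  set t := p >>> 8 with ht
  have ht1 : (t : ℝ) ≤ p / 2 ^ 8 := by rw [ht]; exact shr_le p 8
  have e1 : Real.exp ((p : ℝ) / 2 ^ 40) = Real.exp ((p : ℝ) / 2 ^ 48) ^ 256 := by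
    rw [← pow256]
    congr 1
    ring
  rw [e1]
  apply dn256
  have h2 : Real.exp ((t : ℝ) / 2 ^ 40) ≤ Real.exp ((p : ℝ) / 2 ^ 48) := by
    apply Real.exp_le_exp.2
    rw [div_le_div_iff₀ (by positivity) (by positivity)]
    rw [le_div_iff₀ (by positivity)] at ht1
    nlinarith
  refine le_trans ?_ h2
  rw [div_le_iff₀ (by positivity)]
  refine (div_le_real _ _).trans ?_
  rw [div_le_iff₀ (by norm_num)]
  have h3 := exp_ge3 (x := (t : ℝ) / 2 ^ 40) (by positivity)
  have h4 := mul_le_mul_of_nonneg_right h3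
    (by norm_num : (0 : ℝ) ≤ 2 ^ 40 * 7253554917687775048237056)
  refine le_trans (le_of_eq ?_) (h4.trans (le_of_eq ?_))
  · push_cast
    ring
  · push_cast
    ring

/-- upper bound of `exp(p - m)` -/
def es (p m : ℕ) : ℕ := bif Nat.ble p m then em (m - p) else ep (p - m)
/-- lower bound of `exp(p - m)` -/
def esL (p m : ℕ) : ℕ := bif Nat.ble p m then emL (m - p) else epL (p - m)

theorem es_spec (p m : ℕ) :
    Real.exp ((p : ℝ) / 2 ^ 40 - m / 2 ^ 40) ≤ (es p m : ℝ) / 2 ^ 40 := by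
  unfold es
  by_cases h : p ≤ m
  · rw [Nat.ble_eq_true_of_le h, cond_true]
    refine le_trans (le_of_eq ?_) (em_spec (m - p))
    rw [Nat.cast_sub h]
    congr 1
    ring
  · have hb' : Nat.ble p m = false := by
      rw [Bool.eq_false_iff, ne_eq, Nat.ble_eq]
      exact h
    rw [hb', cond_false]
    refine le_trans (le_of_eq ?_) (ep_spec (p - m))
    rw [Nat.cast_sub (by omega)]
    congr 1
    ring

theorem esL_spec (p m : ℕ) :
    (esL p m : ℝ) / 2 ^ 40 ≤ Real.exp ((p : ℝ) / 2 ^ 40 - m / 2 ^ 40) := by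
  unfold esL
  by_cases h : p ≤ m
  · rw [Nat.ble_eq_true_of_le h, cond_true]
    refine (emL_spec (m - p)).trans (le_of_eq ?_)
    rw [Nat.cast_sub h]
    congr 1
    ring
  · have hb' : Nat.ble p m = false := by
      rw [Bool.eq_false_iff, ne_eq, Nat.ble_eq]
      exact h
    rw [hb', cond_false]
    refine (epL_spec (p - m)).trans (le_of_eq ?_)
    rw [Nat.cast_sub (by omega)]
    congr 1
    ring

end Pool.Agent.Lib.MP_af3a4a_an.P1.CHK.Arith
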